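import Pool.Agent.H75.GEN.IsoJ
import Pool.Agent.H29.REC.Iso

/-!
# Joint chains over the fattest boxes

`jatN_congr`: only the values of the precisions near the point matter. `jatN_rts`: the joint chains
with the precisions `Pool.RTS.iso` of the diagonals.
-/

set_option autoImplicit false

namespace Pool.ISN

open Finset Real MvPolynomial
open Pool.Agent.H49.Ent Pool.Agent.H32.Dense Pool.STK Pool.KA Pool.KSAT Pool.K2S Pool.PB Pool.S6C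
open Pool.GEN Pool.CHT Pool.ISO
open Pool.LEV (Law)

variable {m J : ℕ}

theorem chOK_g {F : Fam m J} {c : ℕ → Fin m} {i : ℕ} {K : ℕ → ℕ} {a w e : ℕ} {g g' : ℕ → ℕ}
    {A : F.Ω → Prop} {G : PtT F → ℕ → MvPolynomial (Option (Fin m)) ℝ}
    {H : LnT F → ℕ → MvPolynomial (Option (Fin m)) ℝ} (h : ChOK F c i K a w e g A G H)
    (hg : ∀ l < i, g' l = g l) : ChOK F c i K a w e g' A G H := by
  have hb : ∀ {ω : F.Ω} {l : ℕ} {b : Option (Fin m) → ℝ}, l < i →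
      NBx c (G (ptr F J ω)) g' a (F.t ω) l b → NBx c (G (ptr F J ω)) g a (F.t ω) l b :=
    fun {ω l b} hl h => ⟨h.1, fun j hj => by
      rw [← hg j (hj.trans hl)]
      exact h.2 j hj⟩
  refine ⟨h.degG, h.degH, h.depG, h.depH, fun ω hω l hl => ?_, fun ω hω l hl b hb' => ?_,
    fun ω hω l hl b hb' k hk => ?_⟩
  · rw [hg l hl]
    exact h.pos ω hω l hl
  · rw [hg l hl]
    exact h.agr ω hω l hl b (hb hl hb')
  · rw [nlp_congr (l := k) (g := g') (g' := g) fun j hj => hg j (by omega)]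
    exact h.lip ω hω l hl b (hb hl hb') k hk

theorem mch_g {F : Fam m J} {c : ℕ → Fin m} {i : ℕ} {K : ℕ → ℕ} {N : ℕ} {R : ℕ → ℕ → Prop}
    {a w : ℕ → ℕ} {e : ℕ} {g g' : ℕ → ℕ → ℕ} {δ : ℕ → ℕ} {B : F.Ω → Prop}
    {G : ℕ → PtT F → ℕ → MvPolynomial (Option (Fin m)) ℝ}
    {H : ℕ → LnT F → ℕ → MvPolynomial (Option (Fin m)) ℝ} (h : MCh F c i K N R a w e g δ B G H)
    (hg : ∀ k < N, ∀ l < i, g' k l = g k l) : MCh F c i K N R a w e g' δ B G H := by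
  have hb : ∀ {k : ℕ} {ω : F.Ω} {l : ℕ} {b : Option (Fin m) → ℝ}, k < N → l < i →
      NBx c (G k (ptr F J ω)) (g' k) (a k) (F.t ω) l b →
      NBx c (G k (ptr F J ω)) (g k) (a k) (F.t ω) l b :=
    fun {k ω l b} hk hl h => ⟨h.1, fun j hj => by
      rw [← hg k hk j (hj.trans hl)]
      exact h.2 j hj⟩
  refine ⟨fun k hk => chOK_g (h.ok k hk) (hg k hk), fun k' hk' k hk hr l hl ω hω b hb' => ?_,
    fun k' hk' k hk hr l hl ω hω b hb' => ?_, fun k hk l hl ω hω b hb' => ?_⟩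
  · rw [hg k hk l hl]
    exact h.uni k' hk' k hk hr l hl ω hω b (hb hk' hl hb')
  · rw [hg k hk l hl]
    exact h.two k' hk' k hk hr l hl ω hω b (hb hk' hl hb')
  · exact h.siz k hk l hl ω hω b (hb hk hl hb')

/-- **Only the values near the point matter.** -/
theorem jatN_congr {S : PCl m} {c : ℕ → Fin m} {r : ℕ} {β β' : ℕ → ℝ → ℝ → ℝ} {x ρ E : ℝ}
    {Att : Set (ℝ × ℝ)} (h : Pool.TRC.JatN S c r β x Att ρ E)
    (hβ : ∀ l ≤ r, ∀ a w, (a, w) ∈ Att → w ≤ a → |a - x| ≤ ρ → |w - x| ≤ ρ →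
      β' l a w = β l a w) : Pool.TRC.JatN S c r β' x Att ρ E := by
  intro e' he'
  obtain ⟨ρ', hρ', h1⟩ := h e' he'
  refine ⟨ρ', hρ', fun N a w haw φ hφ => ?_⟩
  obtain ⟨K, d, δ, K₁, hK₁, hd, hB⟩ := h1 N a w haw φ hφ
  refine ⟨K, d, δ, K₁, hK₁, hd, Bas.mono 0 hB ?_⟩
  rintro J - F A ⟨B, G, H, k1, k2, k3, k4⟩
  have hg : ∀ k < N, ∀ l < r + 1, ⌊(β' l (a k) (w k) - d l) * (J : ℝ)⌋₊ =
      ⌊(β l (a k) (w k) - d l) * (J : ℝ)⌋₊ := fun k hk l hl => by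
    obtain ⟨q1, q2, q3, q4⟩ := haw k hk
    rw [hβ l (by omega) _ _ q1 q2 q3 q4]
  exact ⟨B, G, H, k1, k2, mch_g k3 hg, fun k hk h2 h3 =>
    chOK_g (k4 k hk h2 h3) fun l hl => hg k hk l (by omega)⟩

/-- **Joint chains over the fattest boxes.** -/
theorem jatN_rts {S : PCl m} (hS : TmH S) {c : ℕ → Fin m} {r : ℕ}
    (hc : Set.InjOn c (Set.Iio (r + 1))) {β : ℕ → ℝ → ℝ → ℝ} {x E : ℝ} {Att : Set (ℝ × ℝ)}
    (hlaw : ∀ l ≤ r, Law (β l)) (hx0 : 0 < x) (hx1 : x < 1)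
    (hcon : ∀ l ≤ r, ContinuousAt (fun v => β l v v) x) (hβ0 : ∀ l ≤ r, 0 < β l x x)
    (hE0 : 0 < E) (hE : ∀ l ≤ r, E + β l x x < 1)
    (hden : ∀ u v : ℝ, 0 < u → u < v → v < 1 → ∃ y, u < y ∧ y < v ∧ (y, y) ∈ Att) {ρ₀ : ℝ}
    (hρ₀ : 0 < ρ₀) (hJat : Pool.TRC.JatN S c r β x Att ρ₀ E) {E' : ℝ} (hE' : E < E') :
    ∃ ρ₁ : ℝ, 0 < ρ₁ ∧ ∀ ρ : ℝ, ρ ≤ ρ₁ →
      Pool.TRC.JatN S c r (fun l => Pool.RTS.iso fun v => β l v v) x {z | (z.2, z.2) ∈ Att}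
        ρ E' := by
  obtain ⟨ρ₁, hρ₁, h1⟩ := jatN_iso_law hS hc hlaw hx0 hx1 hcon hβ0 hE0 hE hden hρ₀ hJat hE'
  obtain ⟨κ, hκ, hκ'⟩ := fin_pos (r + 1) (f := fun l => (1 - β l x x) / 4) (fun l hl => by
      have h2 := hE l (by omega)
      linarith)
  have hev : ∀ᶠ v in nhds x, ∀ l ∈ range (r + 1), |β l v v - β l x x| < κ := by
    rw [Filter.eventually_all_finset]
    intro l hl
    have h1 := Metric.tendsto_nhds.1 (hcon l (by rw [mem_range] at hl; omega)) κ hκ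
    filter_upwards [h1] with v hv
    rwa [Real.dist_eq] at hv
  obtain ⟨ρc, hρc, hmod⟩ := Metric.eventually_nhds_iff.1 hev
  refine ⟨min ρ₁ (min (ρc / 2) κ), lt_min hρ₁ (lt_min (by positivity) hκ), fun ρ hρ => ?_⟩
  have r1 : ρ ≤ ρ₁ := hρ.trans (min_le_left _ _)
  have r2 : ρ ≤ ρc / 2 := hρ.trans ((min_le_right _ _).trans (min_le_left _ _))
  have r3 : ρ ≤ κ := hρ.trans ((min_le_right _ _).trans (min_le_right _ _))
  refine jatN_congr (h1 ρ r1) fun l hl a w _ hwa h2 h3 => ?_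
  have h4 := abs_lt.1 (hmod (y := w) (by rw [Real.dist_eq]; linarith) l
    (mem_range.2 (by omega)))
  have h5 := hκ' l (by omega)
  have h6 := abs_le.1 h2
  have h7 := abs_le.1 h3
  show min 1 (β l w w + (a - w)) = β l w w + (a - w)
  exact min_eq_right (by linarith [h4.2, h6.2, h7.1])

end Pool.ISN
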