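import Pool.Agent.H2.GEN.Iso
import Pool.Agent.H2.GEN.AttF3

/-!
# Re-centred balls of a family of chains

`Msh`: the labels of one sample at the windows of a mesh (balls). `nest`: the labels of all smaller
windows on the box of a re-centred ball: the boxes are nested, and the increments of the labels
differ by little. No depth of the box is needed; the loss does not depend on the degree, except for
an additive constant.
-/

set_option autoImplicit false

namespace Pool.ISN

open Finset Real MvPolynomial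
open Pool.Agent.H49.Ent Pool.Agent.H32.Dense Pool.STK Pool.KA Pool.KSAT Pool.K2S Pool.PB Pool.S6C
open Pool.GEN Pool.CHT Pool.ISO

variable {m J : ℕ}

/-- **The labels of one sample** at the windows `w 0 ≤ … ≤ w j` of a mesh: balls. -/
structure Msh (c : ℕ → Fin m) (r D j : ℕ) (P : ℕ → ℕ → MvPolynomial (Option (Fin m)) ℝ)
    (g : ℕ → ℕ → ℕ) (w : ℕ → ℕ) (δ μ h : ℕ) (x : Option (Fin m) → ℝ) : Prop where
  deg : ∀ s l, (P s l).totalDegree ≤ D
  dep : ∀ s l, DepC c l (P s l)
  pos : ∀ s ≤ j, ∀ l < r, |x (some (c l)) - eval x (P s l)| ≤ 1 / 2 ^ g s l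
  uni : ∀ s' ≤ j, ∀ s ≤ s', ∀ l < r, ∀ b, NBx c (P s') (g s') (w s') (x none) l b →
    |eval b (P s' l) - eval b (P s l)| ≤ 2 ^ δ / 2 ^ g s l
  wm : ∀ s' ≤ j, ∀ s ≤ s', w s ≤ w s'
  mesh : ∀ s < j, w (s + 1) ≤ w s + h
  slope : ∀ s' ≤ j, ∀ s ≤ s', ∀ l < r, g s l + (w s' - w s) ≤ g s' l + μ

theorem two_div {a b : ℕ} (h : a ≤ b) (n : ℕ) : (2 : ℝ) ^ n / 2 ^ b ≤ 2 ^ n / 2 ^ a :=
  div_le_div_of_nonneg_left (by positivity) (by positivity)
    (pow_le_pow_right₀ (by norm_num) h)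

/-- `2 ^ a / 2 ^ b ≤ 2 ^ c / 2 ^ d`. -/
theorem pdiv {a b c d : ℕ} (h : a + d ≤ c + b) : (2 : ℝ) ^ a / 2 ^ b ≤ 2 ^ c / 2 ^ d := by
  rw [div_le_div_iff₀ (by positivity) (by positivity), ← pow_add, ← pow_add]
  exact pow_le_pow_right₀ (by norm_num) h

theorem one_pdiv {b c d : ℕ} (h : d ≤ c + b) : (1 : ℝ) / 2 ^ b ≤ 2 ^ c / 2 ^ d := by
  have := pdiv (a := 0) (b := b) (c := c) (d := d) (by omega)
  rwa [pow_zero] at this

theorem rdif_sub (P Q : MvPolynomial (Option (Fin m)) ℝ) (x b : Option (Fin m) → ℝ) :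
    rdif P Q x b = eval b (P - Q) - eval x (P - Q) := by
  unfold rdif
  rw [map_sub, map_sub]
  ring

theorem rdif_self (P : MvPolynomial (Option (Fin m)) ℝ) (x b : Option (Fin m) → ℝ) :
    rdif P P x b = 0 := by
  unfold rdif
  ring

theorem rdif_add (P Q R : MvPolynomial (Option (Fin m)) ℝ) (x b : Option (Fin m) → ℝ) :
    rdif P R x b = rdif P Q x b + rdif Q R x b := by
  unfold rdif
  ring

theorem DepC.subp {c : ℕ → Fin m} {i : ℕ} {P Q : MvPolynomial (Option (Fin m)) ℝ}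
    (hP : DepC c i P) (hQ : DepC c i Q) : DepC c i (P - Q) := by
  intro b b' h1 h2
  rw [map_sub, map_sub, hP b b' h1 h2, hQ b b' h1 h2]

/-- **The box of a re-centred ball** in the boxes of the balls of smaller windows. -/
theorem nest (r D : ℕ) : ∃ C : ℕ, ∀ {m : ℕ} {c : ℕ → Fin m} {j N : ℕ}
    {P : ℕ → ℕ → MvPolynomial (Option (Fin m)) ℝ} {g : ℕ → ℕ → ℕ} {w : ℕ → ℕ} {δ μ h : ℕ}
    {x : Option (Fin m) → ℝ}, Msh c r D j P g w δ μ h x → Set.InjOn c (Set.Iio r) →
    ∀ {P' : ℕ → MvPolynomial (Option (Fin m)) ℝ} {gg : ℕ → ℕ} {a' lam B : ℕ}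
    {b : Option (Fin m) → ℝ}, j < N → w j ≤ a' → C * (lam + 1) + δ + h + μ + N + lam ≤ B →
    (∀ l < r, ∀ y, eval y (P' l) - eval x (P' l) = eval y (P j l) - eval x (P j l)) →
    (∀ l < r, |x (some (c l)) - eval x (P' l)| ≤ 1 / 2 ^ gg l) →
    (∀ l < r, g j l + (a' - w j) ≤ gg l + lam) → |b none - x none| ≤ 1 / 2 ^ a' →
    ∀ i ≤ r, (∀ l < i, |b (some (c l)) - eval b (P' l)| ≤ 1 / 2 ^ gg l) →
      (∀ l < i, ∀ s ≤ j, |(b (some (c l)) - eval b (P s l)) -
        (x (some (c l)) - eval x (P s l))| ≤ 2 ^ (i * B) / 2 ^ (g s l + (a' - w s))) ∧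
      (i < r → ∀ s ≤ j, |rdif (P j i) (P s i) x b| ≤
        2 ^ ((i + 1) * B) / 2 ^ (g s i + (a' - w s))) := by
  obtain ⟨c₁, hscl⟩ := scl r D (fun _ => D)
  obtain ⟨c₂, D₁, hD₁, hdil⟩ := nbx_dil r (fun _ => D)
  refine ⟨c₁ + c₂ + 2 * D₁ + 4, ?_⟩
  intro m c j N P g w δ μ h x H hc P' gg a' lam B b hjN hja hB hP' hpos' hlam hb0
  have hD₁' : D₁ ≤ (c₁ + c₂ + 2 * D₁ + 4) * (lam + 1) := by nlinarith
  have hBge : c₁ + c₂ + (lam + 2) * D₁ + 4 + δ + h + μ + N + lam ≤ B := by nlinarith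
  have hwa : ∀ s ≤ j, w s ≤ a' := fun s hs => (H.wm j le_rfl s hs).trans hja
  -- the increments of one label
  have key : ∀ i < r, (∀ l < i, |b (some (c l)) - eval b (P' l)| ≤ 1 / 2 ^ gg l) →
      (∀ l < i, ∀ s ≤ j, |(b (some (c l)) - eval b (P s l)) -
        (x (some (c l)) - eval x (P s l))| ≤ 2 ^ (i * B) / 2 ^ (g s l + (a' - w s))) →
      ∀ s ≤ j, |rdif (P j i) (P s i) x b| ≤
        2 ^ (i * B + (B - 1)) / 2 ^ (g s i + (a' - w s)) := by
    intro i hi hside hn
    have hci : Set.InjOn c (Set.Iio i) := hc.mono fun l hl => lt_trans hl hi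
    obtain ⟨Z, hZ⟩ : ∃ Z, Z = i * B + c₁ + c₂ + (lam + 2) * D₁ + 1 + δ + h + μ := ⟨_, rfl⟩
    -- the box of the ball `j`, dilated
    have hbj : ∀ l < i, |b (some (c l)) - eval b (P j l)| ≤ 2 ^ (lam + 2) / 2 ^ g j l := by
      intro l hl
      have hlr := hl.trans hi
      have h1 := abs_le.1 (hside l hl)
      have h2 := abs_le.1 (hpos' l hlr)
      have h3 := abs_le.1 (H.pos j le_rfl l hlr)
      have h4 := hP' l hlr b
      have h5 : (1 : ℝ) / 2 ^ gg l ≤ 2 ^ lam / 2 ^ g j l :=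
        one_pdiv (by have := hlam l hlr; omega)
      have h6 : (1 : ℝ) / 2 ^ g j l ≤ 2 ^ lam / 2 ^ g j l := one_pdiv (by omega)
      have h7 : (2 : ℝ) ^ (lam + 2) / 2 ^ g j l = 4 * (2 ^ lam / 2 ^ g j l) := by
        rw [pow_add]; ring
      have h8 : (0 : ℝ) < 2 ^ lam / 2 ^ g j l := by positivity
      rw [h7, abs_le]
      constructor <;> linarith only [h1.1, h1.2, h2.1, h2.2, h3.1, h3.2, h4, h5, h6, h8]
    have hdeg : ∀ s s' : ℕ, (P s' i - P s i).totalDegree ≤ D := fun s s' =>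
      (MvPolynomial.totalDegree_sub _ _).trans (max_le (H.deg _ _) (H.deg _ _))
    have hdep : ∀ s s' : ℕ, DepC c i (P s' i - P s i) := fun s s' =>
      DepC.subp (H.dep _ _) (H.dep _ _)
    have hself : ∀ s ≤ j, NBx c (P s) (g s) (w s) (x none) i x := fun s hs =>
      ⟨by rw [sub_self, abs_zero]; positivity, fun l hl => H.pos s hs l (hl.trans hi)⟩
    have huni : ∀ s' ≤ j, ∀ s ≤ s', ∀ b, NBx c (P s') (g s') (w s') (x none) i b →
        |eval b (P s' i - P s i)| ≤ 2 ^ δ / 2 ^ g s i := by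
      intro s' hs' s hs b hb
      rw [map_sub]
      exact H.uni s' hs' s hs i hi b hb
    have jump : ∀ s ≤ j, |rdif (P j i) (P s i) x b| ≤
        2 ^ (c₂ + (lam + 2) * D₁ + δ + 1) / 2 ^ g s i := by
      intro s hs
      have h1 := hdil (G := P j) (Q := P j i - P s i) (g := g j) (a := w j) (t := x none)
        (M := 2 ^ δ / 2 ^ g s i) (lam + 2) hi hci (H.deg j) (H.dep j) (hdep s j) (hdeg s j)
        (by positivity) (huni j le_rfl s hs) b (hb0.trans (inv_mono hja)) hbj
      have h2 := huni j le_rfl s hs x (hself j le_rfl)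
      rw [rdif_sub]
      have h3 : (1 : ℝ) ≤ 2 ^ (c₂ + (lam + 2) * D₁) := one_le_pow₀ (by norm_num)
      have h4 : (0 : ℝ) < 2 ^ δ / 2 ^ g s i := by positivity
      have h5 : (2 : ℝ) ^ (c₂ + (lam + 2) * D₁ + δ + 1) / 2 ^ g s i =
          2 * (2 ^ (c₂ + (lam + 2) * D₁) * (2 ^ δ / 2 ^ g s i)) := by
        rw [pow_add _ _ 1, pow_add _ _ δ]; ring
      rw [h5]
      have h6 := mul_le_mul_of_nonneg_right h3 h4.le
      refine (abs_sub _ _).trans ?_
      linarith
    have deep : ∀ s < j, i * B ≤ a' - w (s + 1) → |rdif (P (s + 1) i) (P s i) x b| ≤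
        2 ^ (c₁ + i * B) / 2 ^ (a' - w (s + 1)) * (2 ^ δ / 2 ^ g s i) := by
      intro s hs hv
      rw [rdif_sub]
      have hw1 := hwa (s + 1) hs
      exact hscl (G := P (s + 1)) (Q := P (s + 1) i - P s i) (g := g (s + 1)) (a := w (s + 1))
        (n := i * B) (v := a' - w (s + 1)) (M := 2 ^ δ / 2 ^ g s i) hi hci (H.deg (s + 1))
        (H.dep (s + 1)) (hdep s (s + 1)) (hdeg s (s + 1)) (by positivity)
        (huni (s + 1) hs s (Nat.le_succ s)) (fun l hl => H.pos (s + 1) hs l (hl.trans hi)) hv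
        (hb0.trans (one_pdiv (by omega))) fun l hl => hn l hl (s + 1) hs
    have main : ∀ k : ℕ, ∀ s, s + k = j → ∀ s₀ ≤ s, |rdif (P j i) (P s i) x b| ≤
        (k + 1) * (2 ^ Z / 2 ^ (g s₀ i + (a' - w s₀))) := by
      intro k
      induction k with
      | zero =>
        intro s hs s₀ _
        obtain rfl : s = j := by omega
        rw [rdif_self, abs_zero]
        positivity
      | succ k ih =>
        intro s hs s₀ hs₀
        have hsj : s < j := by omega
        have h1 := H.slope s hsj.le s₀ hs₀ i hi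
        have h2 := H.mesh s hsj
        have h3 := hwa (s + 1) hsj
        have h4 := H.wm s hsj.le s₀ hs₀
        have h5 := hwa s hsj.le
        have h0 : (0 : ℝ) < 2 ^ Z / 2 ^ (g s₀ i + (a' - w s₀)) := by positivity
        by_cases hv : i * B ≤ a' - w (s + 1)
        · rw [rdif_add (P j i) (P (s + 1) i) (P s i)]
          have h6 := ih (s + 1) (by omega) s₀ (by omega)
          have h7 := deep s hsj hv
          have h8 : (2 : ℝ) ^ (c₁ + i * B) / 2 ^ (a' - w (s + 1)) * (2 ^ δ / 2 ^ g s i) ≤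
              2 ^ Z / 2 ^ (g s₀ i + (a' - w s₀)) := by
            rw [div_mul_div_comm, ← pow_add, ← pow_add]
            exact pdiv (by omega)
          refine (abs_add_le _ _).trans ?_
          push_cast
          linarith
        · have h7 := jump s hsj.le
          have h8 : (2 : ℝ) ^ (c₂ + (lam + 2) * D₁ + δ + 1) / 2 ^ g s i ≤
              2 ^ Z / 2 ^ (g s₀ i + (a' - w s₀)) := pdiv (by omega)
          refine (h7.trans h8).trans ?_
          push_cast
          have h9 : (0 : ℝ) ≤ k := Nat.cast_nonneg k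
          nlinarith
    intro s hs
    have h1 := main (j - s) s (by omega) s le_rfl
    refine h1.trans ?_
    have h2 : (((j - s : ℕ) : ℝ) + 1) ≤ 2 ^ N := by
      have h3 : j - s + 1 ≤ 2 ^ N := (show j - s + 1 ≤ N by omega).trans Nat.lt_two_pow_self.le
      exact_mod_cast h3
    have h3 : (0 : ℝ) < 2 ^ Z / 2 ^ (g s i + (a' - w s)) := by positivity
    calc _ ≤ 2 ^ N * (2 ^ Z / 2 ^ (g s i + (a' - w s))) := mul_le_mul_of_nonneg_right h2 h3.le
      _ = 2 ^ (N + Z) / 2 ^ (g s i + (a' - w s)) := by rw [pow_add]; ring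
      _ ≤ _ := pdiv (by omega)
  intro i
  induction i with
  | zero =>
    intro _ hside
    have h0 : ∀ l < 0, ∀ s ≤ j, |(b (some (c l)) - eval b (P s l)) -
        (x (some (c l)) - eval x (P s l))| ≤ 2 ^ (0 * B) / 2 ^ (g s l + (a' - w s)) :=
      fun l hl => absurd hl (Nat.not_lt_zero l)
    exact ⟨h0, fun hr s hs => (key 0 hr hside h0 s hs).trans (pdiv (by omega))⟩
  | succ i ih =>
    intro hir hside
    obtain ⟨h1, -⟩ := ih (by omega) fun l hl => hside l (by omega)
    have h2 := key i hir (fun l hl => hside l (by omega)) h1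
    have hB1 : (i + 1) * B = i * B + B := by ring
    have hB2 : (i + 1 + 1) * B = i * B + B + B := by ring
    have h3 : ∀ l < i + 1, ∀ s ≤ j, |(b (some (c l)) - eval b (P s l)) -
        (x (some (c l)) - eval x (P s l))| ≤
          2 ^ ((i + 1) * B) / 2 ^ (g s l + (a' - w s)) := by
      intro l hl s hs
      rcases Nat.lt_or_ge l i with h4 | h4
      · exact (h1 l h4 s hs).trans (pdiv (by omega))
      · obtain rfl : l = i := by omega
        have h5 := abs_le.1 (h2 s hs)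
        have h6 := abs_le.1 (hside l hl)
        have h7 := abs_le.1 (hpos' l hir)
        have h8 := hP' l hir b
        have h9 := hlam l hir
        have h10 := H.slope j le_rfl s hs l hir
        have h11 := H.wm j le_rfl s hs
        have h12 : (1 : ℝ) / 2 ^ gg l ≤ 2 ^ (l * B + (B - 2)) / 2 ^ (g s l + (a' - w s)) :=
          one_pdiv (by omega)
        obtain ⟨q, hq⟩ : ∃ q : ℝ, q = 2 ^ (l * B + (B - 2)) / 2 ^ (g s l + (a' - w s)) :=
          ⟨_, rfl⟩
        have e1 : (2 : ℝ) ^ (l * B + (B - 1)) / 2 ^ (g s l + (a' - w s)) = 2 * q := by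
          rw [hq, show l * B + (B - 1) = l * B + (B - 2) + 1 by omega, pow_succ]; ring
        have e2 : (2 : ℝ) ^ ((l + 1) * B) / 2 ^ (g s l + (a' - w s)) = 4 * q := by
          rw [hq, hB1, show l * B + B = l * B + (B - 2) + 2 by omega, pow_add]; ring
        have e3 : (b (some (c l)) - eval b (P s l)) - (x (some (c l)) - eval x (P s l)) =
            (b (some (c l)) - eval b (P' l)) - (x (some (c l)) - eval x (P' l)) +
              rdif (P j l) (P s l) x b := by
          unfold rdif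
          linarith
        rw [← hq] at h12
        rw [e1] at h5
        rw [e2, e3, abs_le]
        constructor <;> linarith only [h5.1, h5.2, h6.1, h6.2, h7.1, h7.2, h12]
    exact ⟨h3, fun hr s hs => (key (i + 1) hr hside h3 s hs).trans (pdiv (by omega))⟩

end Pool.ISN
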